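import Pool.Graph.R_pool_sql_team_ae5b0c61.Results.MP_593d43_lc.LowSpan
import Pool.Agent.H61.Lsp.Ex

set_option autoImplicit false

namespace Pool.Agent.Results.MP_593d43_lc.BothBounds

open Pool.Agent.H40.Span Pool.Agent.H61.Lsp

/-- `s` comes from an `n`-stage register with feedback `c + x₀ + g(x_{r₁}, …, x_{r_m})`, where `g`
is orthogonal on the field `K` with `2 ^ m` elements, read in the basis `1, α, …, α ^ (m-1)` of a
primitive element `α`, and `g` is not affine. -/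
def Register (m n : ℕ) (K : Type) [Field K] [Fintype K] (α : K) (g : K → ZMod 2) (c : ZMod 2)
    (r : Fin m → ℕ) (s : ℕ → ZMod 2) : Prop :=
  1 ≤ m ∧ m < n ∧ Fintype.card K = 2 ^ m ∧ orderOf α = 2 ^ m - 1 ∧ Orth g ∧
    (¬ ∀ x y, g (x + y) = g x + g y + g 0) ∧ StrictMono r ∧ (∀ j, 0 < r j ∧ r j < n) ∧
    ∀ k, s (k + n) = c + s k + g (∑ j : Fin m, ((s (k + r j)).val : K) * α ^ (j : ℕ))

/-- The complementary sequence. -/
def compl (s : ℕ → ZMod 2) : ℕ → ZMod 2 := fun k => s k + 1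

theorem result :
    (∃ (m n : ℕ) (K : Type) (_ : Field K) (_ : Fintype K) (α : K) (g : K → ZMod 2) (c : ZMod 2)
      (r : Fin m → ℕ) (s : ℕ → ZMod 2), Register m n K α g c r s ∧ IsSpan n s ∧
        linSpan s < 2 ^ n - 2 - 3 * n) ∧
    (∃ (K : Type) (_ : Field K) (_ : Fintype K) (α : K) (g : K → ZMod 2) (s : ℕ → ZMod 2),
      α ^ 3 = α + 1 ∧ Register 3 4 K α g 0 (fun j => j + 1) s ∧ IsSpan 4 (compl s) ∧
        linSpan (compl s) = 2 ^ 4 - 2 ∧ linSpan s = 2 ^ 4 - 1) ∧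
    (∀ n, 2 ≤ n → ∀ s : ℕ → ZMod 2, IsSpan n (compl s) →
      linSpan s = linSpan (compl s) + 1) := by
  have hcc : ∀ s : ℕ → ZMod 2, compl (compl s) = s := fun s => by
    funext k
    show s k + 1 + 1 = s k
    rw [add_assoc, show (1 + 1 : ZMod 2) = 0 from rfl, add_zero]
  have hgen : ∀ n, 2 ≤ n → ∀ s : ℕ → ZMod 2, IsSpan n (compl s) →
      linSpan s = linSpan (compl s) + 1 := fun n hn s h => by
    have := linSpan_compl n hn (compl s) h
    change linSpan (compl (compl s)) = _ at this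
    rwa [hcc] at this
  refine ⟨?_, ?_, hgen⟩
  · obtain ⟨m, n, K, i1, i2, α, g, c, r, s, h1, h2, h3, h4, h5, h6, h7, h8, h9, h10, h11⟩ :=
      Pool.Agent.Results.MP_593d43_lc.LowSpan.result
    exact ⟨m, n, K, i1, i2, α, g, c, r, s, ⟨h1, h2, h3, h4, h5, h6, h7, h8, h9⟩, h10, h11⟩
  · have hlow := lin8
    have hup : linSpan s8 ≤ 15 := Nat.sInf_le (gen_period s8 15 (by norm_num) s8_per)
    have hs := hgen 4 (by norm_num) s8 span8
    have hc : linSpan (compl s8) = 2 ^ 4 - 2 := by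
      norm_num at hlow ⊢
      omega
    exact ⟨F8, F8.isField.toField, inferInstance, al, g8, s8, by decide +kernel,
      ⟨by norm_num, by norm_num, card8, order8, orth8, nonaff8,
        fun _ _ h => Nat.succ_lt_succ h, fun j => ⟨Nat.succ_pos _, Nat.succ_lt_succ j.2⟩, rec8⟩,
      span8, hc, by rw [hs, hc]; norm_num⟩

end Pool.Agent.Results.MP_593d43_lc.BothBounds
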